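import Pool.Agent.W192.HK.Parts
import Pool.Agent.W216.CY.Div

/-!
# Ray class characters of small order modulo ideals with a cyclic group of units
-/

set_option autoImplicit false

open Finset

namespace Pool.Agent.Y727.RC

open Pool.Agent.W192.HK

/-- the roots of unity of order a divisor `≤ D` of `n` -/
lemma card_roots_le {n : ℕ} (hn : n ≠ 0) {D : ℝ} (hD : 0 ≤ D) (Z : Finset ℂ)
    (hZ : ∀ z ∈ Z, ∃ d : ℕ, d ∣ n ∧ (d : ℝ) ≤ D ∧ z ^ d = 1) :
    (Z.card : ℝ) ≤ n.divisors.card * D := by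
  classical
  have h1 : Z ⊆ (n.divisors.filter (fun d : ℕ => (d : ℝ) ≤ D)).biUnion
      (fun d => Z.filter (fun z => z ^ d = 1)) := by
    intro z hz
    obtain ⟨d, hd, hdD, hzd⟩ := hZ z hz
    rw [Finset.mem_biUnion]
    refine ⟨d, ?_, ?_⟩
    · rw [Finset.mem_filter, Nat.mem_divisors]
      exact ⟨⟨hd, hn⟩, hdD⟩
    · rw [Finset.mem_filter]
      exact ⟨hz, hzd⟩
  have h2 := (Finset.card_le_card h1).trans Finset.card_biUnion_le
  have h3 : ∑ d ∈ n.divisors.filter (fun d : ℕ => (d : ℝ) ≤ D), (Z.filter (fun z => z ^ d = 1)).card ≤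
      ∑ d ∈ n.divisors.filter (fun d : ℕ => (d : ℝ) ≤ D), d := by
    refine Finset.sum_le_sum fun d hd => ?_
    have hd0 : 0 < d := Nat.pos_of_mem_divisors (Finset.mem_filter.1 hd).1
    have h4 : Z.filter (fun z => z ^ d = 1) ⊆ Polynomial.nthRootsFinset d (1 : ℂ) := by
      intro z hz
      rw [Polynomial.mem_nthRootsFinset hd0]
      exact (Finset.mem_filter.1 hz).2
    refine (Finset.card_le_card h4).trans ?_
    rw [(Complex.isPrimitiveRoot_exp d hd0.ne').card_nthRootsFinset]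
  have h4 : (Z.card : ℝ) ≤ ∑ d ∈ n.divisors.filter (fun d : ℕ => (d : ℝ) ≤ D), (d : ℝ) := by
    have h5 : ((Z.card : ℕ) : ℝ) ≤
        ((∑ d ∈ n.divisors.filter (fun d : ℕ => (d : ℝ) ≤ D), d : ℕ) : ℝ) :=
      Nat.cast_le.2 (h2.trans h3)
    rwa [Nat.cast_sum] at h5
  refine h4.trans ?_
  have h5 : ∑ d ∈ n.divisors.filter (fun d : ℕ => (d : ℝ) ≤ D), (d : ℝ) ≤
      ∑ _d ∈ n.divisors.filter (fun d : ℕ => (d : ℝ) ≤ D), D :=
    Finset.sum_le_sum fun d hd => (Finset.mem_filter.1 hd).2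
  refine h5.trans ?_
  rw [Finset.sum_const, nsmul_eq_mul]
  gcongr
  exact Finset.filter_subset _ _

variable {R : Subring ℂ} {ω : ℂ}

lemma isCoprime_of_mul {R : Subring ℂ} {I J c : Ideal R} (h : IsCoprime (I * J) c) :
    IsCoprime I c ∧ IsCoprime J c := IsCoprime.mul_left_iff.1 h

lemma sp_pow (r : R) (k : ℕ) : sp (r ^ k) = (sp r) ^ k := (Ideal.span_singleton_pow r k).symm

lemma rc_pow {c : Ideal R} {χ : Ideal R → ℂ} (hχ : RC c χ) (h1 : χ ⊤ = 1) (I : Ideal R) (k : ℕ) :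
    χ (I ^ k) = χ I ^ k := by
  induction k with
  | zero => rw [pow_zero, pow_zero, Ideal.one_eq_top, h1]
  | succ k ih => rw [pow_succ, pow_succ, hχ.mul, ih]

/-- **Few ray class characters of small order.** -/
theorem card_small (hbasic : H_BASIC) (hcls : H_CLS) (hfpr : H_FPR) (hR : QR R ω) {δ : ℝ}
    (hδ : 0 < δ) : ∃ C : ℝ, 0 < C ∧ ∀ c : Ideal R, c ≠ ⊥ → IsCyclic (R ⧸ c)ˣ → ∀ D : ℝ, 0 ≤ D →
      {χ : Ideal R → ℂ | RC c χ ∧ ∃ d : ℕ, Od χ d ∧ (d : ℝ) ≤ D}.Finite ∧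
      (Set.ncard {χ : Ideal R → ℂ | RC c χ ∧ ∃ d : ℕ, Od χ d ∧ (d : ℝ) ≤ D} : ℝ) ≤
        C * D * (nm c) ^ δ := by
  classical
  obtain ⟨b1, b2, b3, b4, b5, b6, b7, b8, b9⟩ := hbasic R ω hR
  obtain ⟨h, hh1, hpr, hsys⟩ := hcls R ω hR
  obtain ⟨C0, hC0, hdiv, -⟩ := Pool.Agent.W216.CY.t_div δ hδ
  refine ⟨C0 * (h : ℝ) ^ h, by positivity, fun c hc hcyc D hD => ?_⟩
  obtain ⟨s, hh, μ, T, hscard, hS⟩ := hsys c hc
  have hfin : Finite (R ⧸ c) := b1 c hc
  have hfinu : Finite (R ⧸ c)ˣ := inferInstance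
  obtain ⟨g, hg⟩ := hcyc.exists_generator
  set n : ℕ := Nat.card (R ⧸ c)ˣ with hn
  have hn0 : n ≠ 0 := Nat.card_pos.ne'
  -- a nonzero representative of the generator
  obtain ⟨r, hr0, hrg⟩ : ∃ r : R, r ≠ 0 ∧ Ideal.Quotient.mk c r = (g : R ⧸ c) := by
    obtain ⟨r, hr⟩ := Ideal.Quotient.mk_surjective (g : R ⧸ c)
    by_cases h0 : r = 0
    · obtain ⟨x, hx, hx0⟩ := Submodule.exists_mem_ne_zero_of_ne_bot hc
      refine ⟨r + x, ?_, ?_⟩
      · rw [h0, zero_add]; exact hx0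
      · rw [map_add, hr, Ideal.Quotient.eq_zero_iff_mem.2 hx, add_zero]
    · exact ⟨r, h0, hr⟩
  -- principal ideals
  have key : ∀ α : R, α ≠ 0 → IsCoprime (sp α) c → ∃ k : ℕ, ∀ χ : Ideal R → ℂ, RC c χ →
      χ (sp α) = χ (sp r) ^ k := by
    intro α hα hcop
    have hu : IsUnit (Ideal.Quotient.mk c α) := by
      obtain ⟨x, hx, y, hy, hxy⟩ := Ideal.isCoprime_iff_exists.1 hcop
      obtain ⟨z, rfl⟩ := Ideal.mem_span_singleton'.1 hx
      refine IsUnit.of_mul_eq_one (Ideal.Quotient.mk c z) ?_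
      rw [← map_mul, ← map_one (Ideal.Quotient.mk c), Ideal.Quotient.eq]
      have : α * z - 1 = -y := by linear_combination hxy
      rw [this]
      exact neg_mem hy
    obtain ⟨k, hk⟩ := (mem_powers_iff_mem_zpowers (G := (R ⧸ c)ˣ)).2 (hg hu.unit)
    refine ⟨k, fun χ hχ => ?_⟩
    obtain ⟨f1, f2, f3, -⟩ := hfpr R ω hR c χ hχ
    have hk' : Ideal.Quotient.mk c (r ^ k) = Ideal.Quotient.mk c α := by
      have h2 := congrArg (fun u : (R ⧸ c)ˣ => (u : R ⧸ c)) hk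
      simp only [Units.val_pow_eq_pow_val, IsUnit.unit_spec] at h2
      rw [map_pow, hrg, h2]
    rw [f1 α (r ^ k) hα (pow_ne_zero k hr0) (Ideal.Quotient.eq.1 hk'.symm), sp_pow, rc_pow hχ f3]
  -- the value at the generator
  have hrn : ∀ χ : Ideal R → ℂ, RC c χ → χ (sp r) ^ n = 1 := by
    intro χ hχ
    obtain ⟨f1, f2, f3, -⟩ := hfpr R ω hR c χ hχ
    have h2 : Ideal.Quotient.mk c (r ^ n) = 1 := by
      rw [map_pow, hrg, ← Units.val_pow_eq_pow_val, hn, pow_card_eq_one', Units.val_one]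
    have h3 : r ^ n - 1 ∈ c := by
      rw [← map_one (Ideal.Quotient.mk c), Ideal.Quotient.eq] at h2
      exact h2
    rw [← rc_pow hχ f3, ← sp_pow]
    exact hχ.princ _ (pow_ne_zero n hr0) h3
  have hrcop : IsCoprime (sp r) c := by
    have hu : IsUnit (Ideal.Quotient.mk c r) := by rw [hrg]; exact g.isUnit
    obtain ⟨z', hz'⟩ := hu.exists_right_inv
    obtain ⟨z, rfl⟩ := Ideal.Quotient.mk_surjective z'
    rw [← map_mul, ← map_one (Ideal.Quotient.mk c), Ideal.Quotient.eq] at hz'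
    rw [Ideal.isCoprime_iff_exists]
    exact ⟨r * z, Ideal.mul_mem_right _ _ (Ideal.mem_span_singleton_self r), 1 - r * z,
      by rw [← neg_sub]; exact neg_mem hz', by ring⟩
  have hspr : sp r ≠ ⊥ := by
    rw [Ne, Ideal.span_singleton_eq_bot]; exact hr0
  -- the generators of the powers `b ^ h`
  have hb : ∀ b : Ideal R, ∃ β : R, b ^ h = sp β := hpr
  have hbk : ∀ b ∈ s, ∃ k : ℕ, ∀ χ : Ideal R → ℂ, RC c χ → χ b ^ h = χ (sp r) ^ k := by
    intro b hbs
    obtain ⟨β, hβ⟩ := hb b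
    have hb0 : b ^ h ≠ ⊥ := by
      have := hR.ded
      rw [← Ideal.zero_eq_bot]
      exact pow_ne_zero h (by rw [Ideal.zero_eq_bot]; exact hS.cs.ne b hbs)
    have hβ0 : β ≠ 0 := by
      rintro rfl
      apply hb0
      rw [hβ, Ideal.span_singleton_eq_bot]
    have hcop : IsCoprime (sp β) c := by
      rw [← hβ]
      exact (hS.cp b hbs).pow_left
    obtain ⟨k, hk⟩ := key β hβ0 hcop
    refine ⟨k, fun χ hχ => ?_⟩
    obtain ⟨f1, f2, f3, -⟩ := hfpr R ω hR c χ hχ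
    rw [← rc_pow hχ f3, hβ, hk χ hχ]
  choose! kk hkk using hbk
  set S : Set (Ideal R → ℂ) := {χ : Ideal R → ℂ | RC c χ ∧ ∃ d : ℕ, Od χ d ∧ (d : ℝ) ≤ D} with hSdef
  -- the finite set of the values at the generator
  set Z : Finset ℂ := (Polynomial.nthRootsFinset n (1 : ℂ)).filter
    (fun z => ∃ d : ℕ, d ∣ n ∧ (d : ℝ) ≤ D ∧ z ^ d = 1) with hZ
  set W : Finset (ℂ × (s → ℂ)) := Z.biUnion (fun z => (Fintype.piFinset
    (fun b : s => Polynomial.nthRootsFinset h (z ^ (kk b)))).image (fun v => (z, v))) with hW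
  let Φ : (Ideal R → ℂ) → ℂ × (s → ℂ) := fun χ => (χ (sp r), fun b => χ b)
  have hmaps : ∀ χ ∈ S, Φ χ ∈ W := by
    rintro χ ⟨hχ, d, hd, hdD⟩
    have hz : χ (sp r) ≠ 0 := by
      rw [Ne, hχ.zero]
      push Not
      exact ⟨hspr, hrcop⟩
    rw [hW, Finset.mem_biUnion]
    refine ⟨χ (sp r), ?_, ?_⟩
    · rw [hZ, Finset.mem_filter, Polynomial.mem_nthRootsFinset (Nat.pos_of_ne_zero hn0)]
      refine ⟨hrn χ hχ, Nat.gcd n d, Nat.gcd_dvd_left n d, ?_, ?_⟩
      · refine le_trans ?_ hdD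
        exact_mod_cast Nat.le_of_dvd hd.pos (Nat.gcd_dvd_right n d)
      · exact pow_gcd_eq_one.2 ⟨hrn χ hχ, hd.pow _ hz⟩
    · rw [Finset.mem_image]
      refine ⟨fun b => χ b, ?_, rfl⟩
      rw [Fintype.mem_piFinset]
      intro b
      rw [Polynomial.mem_nthRootsFinset (by omega)]
      exact hkk b b.2 χ hχ
  have hinj : Set.InjOn Φ S := by
    rintro χ ⟨hχ, -⟩ χ' ⟨hχ', -⟩ he
    have e1 : χ (sp r) = χ' (sp r) := congrArg Prod.fst he
    have e2 : ∀ b ∈ s, χ b = χ' b := by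
      intro b hb
      exact congrFun (congrArg Prod.snd he) ⟨b, hb⟩
    funext I
    by_cases hI : I = ⊥ ∨ ¬ IsCoprime I c
    · rw [(hχ.zero I).2 hI, (hχ'.zero I).2 hI]
    · push Not at hI
      obtain ⟨b, ⟨hbs, α, hα⟩, -⟩ := hS.cs.uni I hI.1
      have hIb : IsCoprime (I * b) c := IsCoprime.mul_left hI.2 (hS.cp b hbs)
      have hIb0 : I * b ≠ ⊥ := by
        have := hR.ded
        rw [← Ideal.zero_eq_bot]
        exact mul_ne_zero (by rw [Ideal.zero_eq_bot]; exact hI.1)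
          (by rw [Ideal.zero_eq_bot]; exact hS.cs.ne b hbs)
      have hα0 : α ≠ 0 := by
        rintro rfl
        apply hIb0
        rw [hα, Ideal.span_singleton_eq_bot]
      obtain ⟨k, hk⟩ := key α hα0 (by rw [← hα]; exact hIb)
      have hb0 : χ b ≠ 0 := by
        rw [Ne, hχ.zero]
        push Not
        exact ⟨hS.cs.ne b hbs, hS.cp b hbs⟩
      have h3 : χ I * χ b = χ' I * χ b := by
        rw [← hχ.mul, hα, hk χ hχ, e1, ← hk χ' hχ', ← hα, hχ'.mul, e2 b hbs]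
      exact mul_right_cancel₀ hb0 h3
  have hSfin : S.Finite := Set.Finite.of_injOn (fun χ hχ => hmaps χ hχ) hinj (Finset.finite_toSet W)
  refine ⟨hSfin, ?_⟩
  have hcard : S.ncard ≤ W.card := by
    rw [← Set.ncard_coe_finset W]
    exact Set.ncard_le_ncard_of_injOn Φ (fun χ hχ => hmaps χ hχ) hinj (Finset.finite_toSet W)
  have hWcard : W.card ≤ Z.card * h ^ h := by
    rw [hW]
    refine Finset.card_biUnion_le.trans ?_
    rw [← smul_eq_mul]
    refine Finset.sum_le_card_nsmul _ _ _ fun z hz => ?_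
    refine Finset.card_image_le.trans ?_
    rw [Fintype.card_piFinset]
    have hs' : Fintype.card s = h := by rw [Fintype.card_coe, hscard]
    calc ∏ b : s, (Polynomial.nthRootsFinset h (z ^ (kk b))).card ≤ ∏ _b : s, h := by
          refine Finset.prod_le_prod' fun b _ => ?_
          refine (Multiset.toFinset_card_le _).trans ?_
          exact Polynomial.card_nthRoots h _
      _ = h ^ h := by rw [Finset.prod_const, Finset.card_univ, hs']
  have hZcard : (Z.card : ℝ) ≤ n.divisors.card * D :=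
    card_roots_le hn0 hD Z (fun z hz => (Finset.mem_filter.1 hz).2)
  have hnle : (n : ℝ) ≤ nm c := by
    unfold nm
    have : n ≤ Nat.card (R ⧸ c) := by
      rw [hn]
      exact Nat.card_le_card_of_injective (fun u : (R ⧸ c)ˣ => (u : R ⧸ c)) Units.val_injective
    exact_mod_cast this
  have hdn : (n.divisors.card : ℝ) ≤ C0 * (nm c) ^ δ := by
    refine (hdiv n (Nat.one_le_iff_ne_zero.2 hn0)).trans ?_
    gcongr
  calc (S.ncard : ℝ) ≤ (W.card : ℝ) := by exact_mod_cast hcard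
    _ ≤ (Z.card : ℝ) * (h : ℝ) ^ h := by exact_mod_cast hWcard
    _ ≤ (n.divisors.card * D) * (h : ℝ) ^ h := by gcongr
    _ ≤ ((C0 * (nm c) ^ δ) * D) * (h : ℝ) ^ h := by gcongr
    _ = _ := by ring

end Pool.Agent.Y727.RC
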