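import Pool.Agent.Y727.RC.Cnt

/-!
# Totals of a small quantity over the primitive ray class characters of one conductor
-/

set_option autoImplicit false

open Finset

namespace Pool.Agent.Y727.RC

open Pool.Agent.W192.HK

variable {R : Subring ℂ} {ω : ℂ}

lemma hc_rc {c : Ideal R} {χ : Ideal R → ℂ} (h : HC 0 c χ) : RC c χ :=
  ⟨h.ne, h.mul, h.zero, fun α h0 h1 => by rw [h.princ α h0 h1, pow_zero]⟩

/-- **Total for one conductor**, `(R / c)ˣ` cyclic -/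
theorem tot_one (hbasic : H_BASIC) (hcls : H_CLS) (hfpr : H_FPR) (hcnt : H_CNT) (hR : QR R ω)
    (P : Ideal R → Prop) (o : Ideal R → (Ideal R → ℂ) → ℕ) {K : ℝ} (hK : 0 < K)
    (ho : ∀ (c : Ideal R) (χ : Ideal R → ℂ), P c → HC 0 c χ →
      (o c χ : ℝ) ≤ K * (1 + Real.log (nm c)))
    (hz : ∀ ε : ℝ, 0 < ε → ∃ N0 : ℝ, ∀ (c : Ideal R) (χ : Ideal R → ℂ), P c → HC 0 c χ →
      N0 ≤ nm c → ∀ d : ℕ, Od χ d → (nm c) ^ (2 / 3 + ε) ≤ d → o c χ = 0)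
    {ε : ℝ} (hε : 0 < ε) : ∃ C : ℝ, 0 < C ∧ ∀ c : Ideal R, c ≠ ⊥ → P c → IsCyclic (R ⧸ c)ˣ →
      {χ : Ideal R → ℂ | HC 0 c χ}.Finite ∧
      ((∑ᶠ χ ∈ {χ : Ideal R → ℂ | HC 0 c χ}, o c χ : ℕ) : ℝ) ≤ C * (nm c) ^ (2 / 3 + ε) := by
  classical
  set δ : ℝ := ε / 3 with hδ
  have hδ0 : 0 < δ := by positivity
  obtain ⟨b1, b2, b3, b4, b5, b6, b7, b8, b9⟩ := hbasic R ω hR
  obtain ⟨-, -, C1, hC1, -, hC1'⟩ := hcnt R ω hR
  obtain ⟨C2, hC2, hsmall⟩ := card_small hbasic hcls hfpr hR hδ0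
  obtain ⟨N0, hN0⟩ := hz δ hδ0
  set A : ℝ := max (C1 * max N0 1) 1 with hA
  have hA1 : 1 ≤ A := le_max_right _ _
  refine ⟨C2 * A * (K * (1 + 1 / δ)), by positivity, fun c hc hP hcyc => ?_⟩
  have hn1 : 1 ≤ nm c := b3 c hc
  have hn0 : 0 < nm c := by linarith
  have hodd : ∀ χ : Ideal R → ℂ, HC 0 c χ → ∃ d : ℕ, Od χ d ∧ (d : ℝ) ≤ C1 * nm c := by
    intro χ hχ
    obtain ⟨f1, f2, f3, d, hd⟩ := hfpr R ω hR c χ (hc_rc hχ)
    exact ⟨d, hd, (hC1' c χ (hc_rc hχ) d hd).1⟩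
  have hfin : {χ : Ideal R → ℂ | HC 0 c χ}.Finite := by
    refine (hsmall c hc hcyc (C1 * nm c) (by positivity)).1.subset ?_
    intro χ hχ
    exact ⟨hc_rc hχ, hodd χ hχ⟩
  refine ⟨hfin, ?_⟩
  set D : ℝ := A * (nm c) ^ (2 / 3 + δ) with hD
  have hpow1 : 1 ≤ (nm c) ^ (2 / 3 + δ) := Real.one_le_rpow hn1 (by positivity)
  obtain ⟨hsf, hsc⟩ := hsmall c hc hcyc D (by positivity)
  have hsub : ∀ χ : Ideal R → ℂ, HC 0 c χ → o c χ ≠ 0 →
      χ ∈ {χ : Ideal R → ℂ | RC c χ ∧ ∃ d : ℕ, Od χ d ∧ (d : ℝ) ≤ D} := by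
    intro χ hχ hne
    refine ⟨hc_rc hχ, ?_⟩
    obtain ⟨d, hd, hdle⟩ := hodd χ hχ
    refine ⟨d, hd, ?_⟩
    by_cases h1 : N0 ≤ nm c
    · have h2 : ¬ (nm c) ^ (2 / 3 + δ) ≤ d := fun h => hne (hN0 c χ hP hχ h1 d hd h)
      push Not at h2
      calc (d : ℝ) ≤ 1 * (nm c) ^ (2 / 3 + δ) := by rw [one_mul]; exact h2.le
        _ ≤ D := by rw [hD]; gcongr
    · push Not at h1
      calc (d : ℝ) ≤ C1 * nm c := hdle
        _ ≤ C1 * max N0 1 := by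
            gcongr
            exact h1.le.trans (le_max_left _ _)
        _ ≤ A * 1 := by rw [mul_one]; exact le_max_left _ _
        _ ≤ D := by rw [hD]; gcongr
  rw [finsum_mem_eq_finite_toFinset_sum _ hfin, ← Finset.sum_filter_ne_zero, Nat.cast_sum]
  have hcard : ((hfin.toFinset.filter (fun χ => o c χ ≠ 0)).card : ℝ) ≤ C2 * D * (nm c) ^ δ := by
    refine le_trans ?_ hsc
    have h1 : ((hfin.toFinset.filter (fun χ => o c χ ≠ 0) : Finset (Ideal R → ℂ)) :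
        Set (Ideal R → ℂ)) ⊆ {χ : Ideal R → ℂ | RC c χ ∧ ∃ d : ℕ, Od χ d ∧ (d : ℝ) ≤ D} := by
      intro χ hχ
      rw [Finset.mem_coe, Finset.mem_filter, Set.Finite.mem_toFinset] at hχ
      exact hsub χ hχ.1 hχ.2
    have h2 := Set.ncard_le_ncard h1 hsf
    rw [Set.ncard_coe_finset] at h2
    exact_mod_cast h2
  have hlog : 1 + Real.log (nm c) ≤ (1 + 1 / δ) * (nm c) ^ δ := by
    have h1 := Real.log_le_rpow_div hn0.le hδ0
    have h2 : 1 ≤ (nm c) ^ δ := Real.one_le_rpow hn1 hδ0.le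
    have h3 : (1 + 1 / δ) * (nm c) ^ δ = (nm c) ^ δ + (nm c) ^ δ / δ := by ring
    rw [h3]
    linarith
  calc ∑ χ ∈ hfin.toFinset.filter (fun χ => o c χ ≠ 0), (o c χ : ℝ)
      ≤ ∑ _χ ∈ hfin.toFinset.filter (fun χ => o c χ ≠ 0), K * ((1 + 1 / δ) * (nm c) ^ δ) := by
        refine Finset.sum_le_sum fun χ hχ => ?_
        rw [Finset.mem_filter, Set.Finite.mem_toFinset] at hχ
        refine (ho c χ hP hχ.1).trans ?_
        gcongr
    _ = ((hfin.toFinset.filter (fun χ => o c χ ≠ 0)).card : ℝ) *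
        (K * ((1 + 1 / δ) * (nm c) ^ δ)) := by rw [Finset.sum_const, nsmul_eq_mul]
    _ ≤ (C2 * D * (nm c) ^ δ) * (K * ((1 + 1 / δ) * (nm c) ^ δ)) := by gcongr
    _ = C2 * A * (K * (1 + 1 / δ)) * ((nm c) ^ (2 / 3 + δ) * (nm c) ^ δ * (nm c) ^ δ) := by
        rw [hD]; ring
    _ = C2 * A * (K * (1 + 1 / δ)) * (nm c) ^ (2 / 3 + ε) := by
        rw [← Real.rpow_add hn0, ← Real.rpow_add hn0]
        congr 2
        rw [hδ]; ring

/-! ## powers of a prime ideal of degree one -/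

/-- `𝔭` is a prime ideal of degree one and ramification index one over the prime number `p` -/
structure P1 (p : ℕ) (𝔭 : Ideal R) : Prop where
  pp : p.Prime
  nm : nm 𝔭 = p
  sq : (p : R) ∉ 𝔭 ^ 2

section
variable (hbasic : H_BASIC) (hR : QR R ω) {p : ℕ} {𝔭 : Ideal R} (hp : P1 p 𝔭)
include hbasic hR hp

lemma P1.ne : 𝔭 ≠ ⊥ := by
  obtain ⟨b1, b2, b3, b4, b5, b6, b7, b8, b9⟩ := hbasic R ω hR
  rintro rfl
  have h := hp.nm
  rw [b2] at h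
  exact hp.pp.ne_zero (by exact_mod_cast h.symm)

lemma P1.nm_pow (i : ℕ) : Pool.Agent.W192.HK.nm (𝔭 ^ i) = (p : ℝ) ^ i := by
  obtain ⟨b1, b2, b3, b4, b5, b6, b7, b8, b9⟩ := hbasic R ω hR
  induction i with
  | zero => rw [pow_zero, pow_zero, Ideal.one_eq_top, (b7 ⊤).2 rfl]
  | succ i ih => rw [pow_succ, b4, ih, hp.nm, pow_succ]

lemma P1.card (i : ℕ) : Nat.card (R ⧸ 𝔭 ^ i) = p ^ i := by
  have := hp.nm_pow hbasic hR i
  unfold Pool.Agent.W192.HK.nm at this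
  exact_mod_cast this

lemma P1.ne_pow (i : ℕ) : 𝔭 ^ i ≠ ⊥ := by
  have := hR.ded
  rw [← Ideal.zero_eq_bot]
  exact pow_ne_zero i (hp.ne hbasic hR)

lemma P1.prime : Prime 𝔭 := by
  have := hR.ded
  obtain ⟨b1, b2, b3, b4, b5, b6, b7, b8, b9⟩ := hbasic R ω hR
  rw [← UniqueFactorizationMonoid.irreducible_iff_prime]
  constructor
  · rw [Ideal.isUnit_iff, ← b7, hp.nm]
    intro h
    exact hp.pp.one_lt.ne' (by exact_mod_cast h)
  · intro a b hab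
    have h1 : Pool.Agent.W192.HK.nm a * Pool.Agent.W192.HK.nm b = p := by
      rw [← b4, ← hab, hp.nm]
    unfold Pool.Agent.W192.HK.nm at h1
    have h2 : Nat.card (R ⧸ a) * Nat.card (R ⧸ b) = p := by exact_mod_cast h1
    rw [Ideal.isUnit_iff, Ideal.isUnit_iff, ← b7, ← b7]
    unfold Pool.Agent.W192.HK.nm
    rcases (Nat.dvd_prime hp.pp).1 (Dvd.intro _ h2) with h3 | h3
    · left; exact_mod_cast h3
    · right
      rw [h3] at h2
      have h4 : Nat.card (R ⧸ b) = 1 := by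
        have := hp.pp.pos
        nlinarith
      exact_mod_cast h4

lemma P1.mem : (p : R) ∈ 𝔭 := by
  have hf : Finite (R ⧸ 𝔭) := (hbasic R ω hR).1 _ (hp.ne hbasic hR)
  have := Fintype.ofFinite (R ⧸ 𝔭)
  have h1 := hp.card hbasic hR 1
  rw [pow_one, pow_one] at h1
  rw [← Ideal.Quotient.eq_zero_iff_mem, map_natCast, ← h1, Nat.card_eq_fintype_card]
  exact Nat.cast_card_eq_zero (R ⧸ 𝔭)

lemma P1.not_mem {i j : ℕ} (hij : i < j) : ((p ^ i : ℕ) : R) ∉ 𝔭 ^ j := by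
  have := hR.ded
  intro h
  have hpr := hp.prime hbasic hR
  have h1 : 𝔭 ∣ Ideal.span {(p : R)} := by
    rw [Ideal.dvd_iff_le, Ideal.span_singleton_le_iff_mem]
    exact hp.mem hbasic hR
  obtain ⟨J, hJ⟩ := h1
  have h2 : ¬ 𝔭 ∣ J := by
    rintro ⟨J', rfl⟩
    apply hp.sq
    have h3 : 𝔭 ^ 2 ∣ Ideal.span {(p : R)} := ⟨J', by rw [hJ]; ring⟩
    rwa [Ideal.dvd_iff_le, Ideal.span_singleton_le_iff_mem] at h3
  have h3 : 𝔭 ^ j ∣ 𝔭 ^ i * J ^ i := by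
    rw [← mul_pow, ← hJ, Ideal.span_singleton_pow, Ideal.dvd_iff_le, Ideal.span_singleton_le_iff_mem]
    simpa using h
  have h4 : 𝔭 ^ i * 𝔭 ∣ 𝔭 ^ i * J ^ i := by
    rw [← pow_succ]
    exact (pow_dvd_pow 𝔭 (by omega)).trans h3
  have h5 : 𝔭 ∣ J ^ i := (mul_dvd_mul_iff_left (pow_ne_zero i hpr.ne_zero)).1 h4
  exact h2 (hpr.dvd_of_dvd_pow h5)

/-- the residue ring of a power of a prime ideal of degree one and ramification index one -/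
lemma P1.equiv (j : ℕ) : Nonempty (ZMod (p ^ j) ≃+* R ⧸ 𝔭 ^ j) := by
  have hf : Finite (R ⧸ 𝔭 ^ j) := (hbasic R ω hR).1 _ (hp.ne_pow hbasic hR j)
  have := Fintype.ofFinite (R ⧸ 𝔭 ^ j)
  have hc : Fintype.card (R ⧸ 𝔭 ^ j) = p ^ j := by
    rw [← Nat.card_eq_fintype_card, hp.card hbasic hR]
  have hchar : CharP (R ⧸ 𝔭 ^ j) (p ^ j) := by
    obtain ⟨c, hcc⟩ := CharP.exists (R ⧸ 𝔭 ^ j)
    have h1 : c ∣ p ^ j := by
      rw [← CharP.cast_eq_zero_iff (R ⧸ 𝔭 ^ j) c, ← hc]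
      exact Nat.cast_card_eq_zero (R ⧸ 𝔭 ^ j)
    obtain ⟨i, hi, rfl⟩ := (Nat.dvd_prime_pow hp.pp).1 h1
    rcases hi.lt_or_eq with h2 | rfl
    · exfalso
      apply hp.not_mem hbasic hR h2
      rw [← Ideal.Quotient.eq_zero_iff_mem, map_natCast]
      exact CharP.cast_eq_zero _ _
    · exact hcc
  exact ⟨ZMod.ringEquiv _ hc⟩

lemma P1.cyclic (hp2 : p ≠ 2) (j : ℕ) : IsCyclic (R ⧸ 𝔭 ^ j)ˣ := by
  obtain ⟨e⟩ := hp.equiv hbasic hR j
  have := ZMod.isCyclic_units_of_prime_pow p hp.pp hp2 j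
  exact isCyclic_of_surjective (Units.mapEquiv e.toMulEquiv) (Units.mapEquiv e.toMulEquiv).surjective

lemma P1.card_units {j : ℕ} (hj : 1 ≤ j) : Nat.card (R ⧸ 𝔭 ^ j)ˣ = p ^ (j - 1) * (p - 1) := by
  obtain ⟨e⟩ := hp.equiv hbasic hR j
  rw [← Nat.card_congr (Units.mapEquiv e.toMulEquiv).toEquiv, ← Nat.totient_prime_pow hp.pp (by omega)]
  have : NeZero (p ^ j) := ⟨pow_ne_zero _ hp.pp.ne_zero⟩
  rw [Nat.card_eq_fintype_card, ZMod.card_units_eq_totient]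

/-- the order of a primitive character of conductor `𝔭 ^ j` is divisible by `p ^ (j - 1)` -/
lemma P1.dvd_order (hfpr : H_FPR) (hp2 : p ≠ 2) (j : ℕ) {χ : Ideal R → ℂ} (hχ : HC 0 (𝔭 ^ j) χ)
    {d : ℕ} (hd : Od χ d) : p ^ (j - 1) ∣ d := by
  classical
  have := hR.ded
  rcases Nat.lt_or_ge j 2 with hj | hj
  · have : j - 1 = 0 := by omega
    rw [this, pow_zero]
    exact one_dvd _
  have hpr := hp.prime hbasic hR
  have hrc := hc_rc hχ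
  obtain ⟨f1, f2, f3, -⟩ := hfpr R ω hR _ χ hrc
  -- primitivity
  have hlt : 𝔭 ^ j < 𝔭 ^ (j - 1) := by
    refine lt_of_le_of_ne (Ideal.pow_le_pow_right (by omega)) fun h => ?_
    have h1 := hp.card hbasic hR j
    rw [h, hp.card hbasic hR] at h1
    have := Nat.pow_right_injective hp.pp.two_le h1
    omega
  obtain ⟨α, hα0, hα1, hαc, hα⟩ := hχ.prim _ hlt
  rw [pow_zero] at hα
  -- a generator
  obtain ⟨g, hg⟩ := (hp.cyclic hbasic hR hp2 j).exists_generator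
  obtain ⟨r, hr0, hrg⟩ : ∃ r : R, r ≠ 0 ∧ Ideal.Quotient.mk (𝔭 ^ j) r = (g : R ⧸ 𝔭 ^ j) := by
    obtain ⟨r, hr⟩ := Ideal.Quotient.mk_surjective (g : R ⧸ 𝔭 ^ j)
    by_cases h0 : r = 0
    · obtain ⟨x, hx, hx0⟩ := Submodule.exists_mem_ne_zero_of_ne_bot (hp.ne_pow hbasic hR j)
      refine ⟨r + x, ?_, ?_⟩
      · rw [h0, zero_add]; exact hx0
      · rw [map_add, hr, Ideal.Quotient.eq_zero_iff_mem.2 hx, add_zero]
    · exact ⟨r, h0, hr⟩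
  have hcu := hp.card_units hbasic hR (j := j) (by omega)
  have hu : IsUnit (Ideal.Quotient.mk (𝔭 ^ j) α) := by
    obtain ⟨x, hx, y, hy, hxy⟩ := Ideal.isCoprime_iff_exists.1 hαc
    obtain ⟨z, rfl⟩ := Ideal.mem_span_singleton'.1 hx
    refine IsUnit.of_mul_eq_one (Ideal.Quotient.mk _ z) ?_
    rw [← map_mul, ← map_one (Ideal.Quotient.mk (𝔭 ^ j)), Ideal.Quotient.eq]
    have : α * z - 1 = -y := by linear_combination hxy
    rw [this]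
    exact neg_mem hy
  have hfu : Finite (R ⧸ 𝔭 ^ j)ˣ := by
    have : Finite (R ⧸ 𝔭 ^ j) := (hbasic R ω hR).1 _ (hp.ne_pow hbasic hR j)
    infer_instance
  have hog : orderOf g = p ^ (j - 1) * (p - 1) := by
    rw [← hcu]
    exact orderOf_eq_card_of_forall_mem_zpowers hg
  obtain ⟨k, hk⟩ := (mem_powers_iff_mem_zpowers (G := (R ⧸ 𝔭 ^ j)ˣ)).2 (hg hu.unit)
  have hk1 : g ^ k = hu.unit := hk
  have hk' : Ideal.Quotient.mk (𝔭 ^ j) (r ^ k) = Ideal.Quotient.mk (𝔭 ^ j) α := by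
    have h2 := congrArg (fun u : (R ⧸ 𝔭 ^ j)ˣ => (u : R ⧸ 𝔭 ^ j)) hk1
    simp only [Units.val_pow_eq_pow_val, IsUnit.unit_spec] at h2
    rw [map_pow, hrg, h2]
  have hχα : χ (sp α) = χ (sp r) ^ k := by
    rw [f1 α (r ^ k) hα0 (pow_ne_zero k hr0) (Ideal.Quotient.eq.1 hk'.symm), sp_pow, rc_pow hrc f3]
  -- `α ^ p ≡ 1`
  have hαp : α ^ p - 1 ∈ 𝔭 ^ j := by
    have h1 : α ^ p - 1 = (∑ i ∈ Finset.range p, α ^ i) * (α - 1) := (geom_sum_mul α p).symm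
    have h2 : (∑ i ∈ Finset.range p, α ^ i) ∈ 𝔭 := by
      rw [← Ideal.Quotient.eq_zero_iff_mem, map_sum]
      have h3 : Ideal.Quotient.mk 𝔭 α = 1 := by
        rw [← map_one (Ideal.Quotient.mk 𝔭), Ideal.Quotient.eq]
        exact Ideal.pow_le_self (by omega) hα1
      simp only [map_pow, h3, one_pow, Finset.sum_const, Finset.card_range, nsmul_eq_mul, mul_one]
      rw [← map_natCast (Ideal.Quotient.mk 𝔭), Ideal.Quotient.eq_zero_iff_mem]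
      exact hp.mem hbasic hR
    have h3 : 𝔭 ^ j = 𝔭 * 𝔭 ^ (j - 1) := by
      rw [← pow_succ']
      congr 1
      omega
    rw [h1, h3]
    exact Ideal.mul_mem_mul h2 hα1
  have hkp : p ^ (j - 1) * (p - 1) ∣ k * p := by
    rw [← hog, orderOf_dvd_iff_pow_eq_one, pow_mul, hk1]
    ext
    rw [Units.val_pow_eq_pow_val, IsUnit.unit_spec, Units.val_one, ← map_pow,
      ← map_one (Ideal.Quotient.mk (𝔭 ^ j)), Ideal.Quotient.eq]
    exact hαp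
  have hpk : p ^ (j - 2) * (p - 1) ∣ k := by
    have h1 : p ^ (j - 1) = p ^ (j - 2) * p := by
      rw [← pow_succ]
      congr 1
      omega
    rw [h1, mul_right_comm] at hkp
    exact Nat.dvd_of_mul_dvd_mul_right hp.pp.pos hkp
  -- the value at the generator
  have hr : IsCoprime (sp r) (𝔭 ^ j) := by
    have hu : IsUnit (Ideal.Quotient.mk (𝔭 ^ j) r) := by rw [hrg]; exact g.isUnit
    obtain ⟨z', hz'⟩ := hu.exists_right_inv
    obtain ⟨z, rfl⟩ := Ideal.Quotient.mk_surjective z'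
    rw [← map_mul, ← map_one (Ideal.Quotient.mk (𝔭 ^ j)), Ideal.Quotient.eq] at hz'
    rw [Ideal.isCoprime_iff_exists]
    exact ⟨r * z, Ideal.mul_mem_right _ _ (Ideal.mem_span_singleton_self r), 1 - r * z,
      by rw [← neg_sub]; exact neg_mem hz', by ring⟩
  have hz0 : χ (sp r) ≠ 0 := by
    rw [Ne, hχ.zero]
    push Not
    refine ⟨?_, hr⟩
    rw [Ne, Ideal.span_singleton_eq_bot]
    exact hr0
  have hzn : χ (sp r) ^ (p ^ (j - 1) * (p - 1)) = 1 := by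
    have h2 : Ideal.Quotient.mk (𝔭 ^ j) (r ^ (p ^ (j - 1) * (p - 1))) = 1 := by
      rw [map_pow, hrg, ← Units.val_pow_eq_pow_val, ← hog, pow_orderOf_eq_one, Units.val_one]
    have h3 : r ^ (p ^ (j - 1) * (p - 1)) - 1 ∈ 𝔭 ^ j := by
      rw [← map_one (Ideal.Quotient.mk (𝔭 ^ j)), Ideal.Quotient.eq] at h2
      exact h2
    rw [← rc_pow hrc f3, ← sp_pow]
    exact hrc.princ _ (pow_ne_zero _ hr0) h3
  have hzne : χ (sp r) ^ (p ^ (j - 2) * (p - 1)) ≠ 1 := by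
    intro h
    apply hα
    obtain ⟨t, rfl⟩ := hpk
    rw [hχα, pow_mul, h, one_pow]
  have hdz : orderOf (χ (sp r)) ∣ d := orderOf_dvd_of_pow_eq_one (hd.pow _ hz0)
  refine dvd_trans ?_ hdz
  have h1 : orderOf (χ (sp r)) ∣ p ^ (j - 1) * (p - 1) := orderOf_dvd_of_pow_eq_one hzn
  obtain ⟨a, b, ha, hb, hab⟩ := (Nat.dvd_mul).1 h1
  obtain ⟨i, hi, rfl⟩ := (Nat.dvd_prime_pow hp.pp).1 ha
  rcases hi.lt_or_eq with h2 | rfl
  · exfalso
    apply hzne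
    rw [← orderOf_dvd_iff_pow_eq_one, ← hab]
    exact mul_dvd_mul (pow_dvd_pow p (by omega)) hb
  · rw [← hab]
    exact dvd_mul_right _ _

end

/-- **Total in the tower of the powers of a prime ideal of degree one.** -/
theorem tot_tower (hbasic : H_BASIC) (hfpr : H_FPR) (hR : QR R ω)
    (P : Ideal R → Prop) (hPm : ∀ (c : Ideal R) (j : ℕ), P c → P (c ^ j))
    (o : Ideal R → (Ideal R → ℂ) → ℕ)
    (hz : ∀ ε : ℝ, 0 < ε → ∃ N0 : ℝ, ∀ (c : Ideal R) (χ : Ideal R → ℂ), P c → HC 0 c χ →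
      N0 ≤ nm c → ∀ d : ℕ, Od χ d → (nm c) ^ (2 / 3 + ε) ≤ d → o c χ = 0)
    {ε C : ℝ} (hε : 0 < ε) (hC : 0 < C)
    (h1 : ∀ c : Ideal R, c ≠ ⊥ → P c → IsCyclic (R ⧸ c)ˣ →
      ((∑ᶠ χ ∈ {χ : Ideal R → ℂ | HC 0 c χ}, o c χ : ℕ) : ℝ) ≤ C * (nm c) ^ (2 / 3 + ε)) :
    ∃ C' : ℝ, 0 < C' ∧ ∀ (p : ℕ) (𝔭 : Ideal R), P1 p 𝔭 → p ≠ 2 → P 𝔭 → ∀ k : ℕ,
      ((∑ j ∈ Finset.range (k + 1), ∑ᶠ χ ∈ {χ : Ideal R → ℂ | HC 0 (𝔭 ^ j) χ}, o (𝔭 ^ j) χ : ℕ) : ℝ) ≤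
        C' * (min ((p : ℝ) ^ k) ((p : ℝ) ^ 3)) ^ (2 / 3 + ε) := by
  classical
  obtain ⟨N0, hN0⟩ := hz (1 / 12) (by norm_num)
  obtain ⟨J1, hJ1⟩ := pow_unbounded_of_one_lt N0 (by norm_num : (1 : ℝ) < 2)
  set J : ℕ := max 3 J1 with hJ
  set A : ℝ := (max N0 1) ^ (2 / 3 + ε) with hA
  have hA1 : 1 ≤ A := Real.one_le_rpow (le_max_right _ _) (by positivity)
  refine ⟨(J + 1) * (C * A), by positivity, fun p 𝔭 hp hp2 hP k => ?_⟩
  have hp1 : (1 : ℝ) ≤ p := by exact_mod_cast hp.pp.one_le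
  set M : ℝ := (min ((p : ℝ) ^ k) ((p : ℝ) ^ 3)) ^ (2 / 3 + ε) with hM
  have hmin1 : 1 ≤ min ((p : ℝ) ^ k) ((p : ℝ) ^ 3) := le_min (one_le_pow₀ hp1) (one_le_pow₀ hp1)
  have hM1 : 1 ≤ M := Real.one_le_rpow hmin1 (by positivity)
  have hT : ∀ j : ℕ, ((∑ᶠ χ ∈ {χ : Ideal R → ℂ | HC 0 (𝔭 ^ j) χ}, o (𝔭 ^ j) χ : ℕ) : ℝ) ≤
      C * ((p : ℝ) ^ j) ^ (2 / 3 + ε) := by
    intro j
    have h2 := h1 (𝔭 ^ j) (hp.ne_pow hbasic hR j) (hPm _ _ hP) (hp.cyclic hbasic hR hp2 j)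
    rwa [hp.nm_pow hbasic hR] at h2
  have hzero : ∀ j : ℕ, 4 ≤ j → N0 ≤ (p : ℝ) ^ j →
      (∑ᶠ χ ∈ {χ : Ideal R → ℂ | HC 0 (𝔭 ^ j) χ}, o (𝔭 ^ j) χ : ℕ) = 0 := by
    intro j hj hN
    refine finsum_mem_eq_zero_of_forall_eq_zero fun χ hχ => ?_
    have hχ' : HC 0 (𝔭 ^ j) χ := hχ
    obtain ⟨-, -, -, d, hd⟩ := hfpr R ω hR _ χ (hc_rc hχ')
    refine hN0 (𝔭 ^ j) χ (hPm _ _ hP) hχ' (by rw [hp.nm_pow hbasic hR]; exact hN) d hd ?_
    rw [hp.nm_pow hbasic hR]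
    have h2 := Nat.le_of_dvd hd.pos (hp.dvd_order hbasic hR hfpr hp2 j hχ' hd)
    have h3 : ((p : ℝ) ^ (j - 1)) ≤ d := by exact_mod_cast h2
    refine le_trans ?_ h3
    rw [← Real.rpow_natCast, ← Real.rpow_natCast, ← Real.rpow_mul (by positivity)]
    refine Real.rpow_le_rpow_of_exponent_le hp1 ?_
    have h4 : (4 : ℝ) ≤ j := by exact_mod_cast hj
    push_cast [Nat.cast_sub (show 1 ≤ j by omega)]
    linarith
  have hterm : ∀ j ∈ Finset.range (k + 1),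
      ((∑ᶠ χ ∈ {χ : Ideal R → ℂ | HC 0 (𝔭 ^ j) χ}, o (𝔭 ^ j) χ : ℕ) : ℝ) ≤
        if j < J + 1 then C * A * M else 0 := by
    intro j hj
    rw [Finset.mem_range] at hj
    have hpj : (1 : ℝ) ≤ (p : ℝ) ^ j := one_le_pow₀ hp1
    split_ifs with hjJ
    · rcases Nat.lt_or_ge j 4 with h4 | h4
      · refine (hT j).trans ?_
        have h5 : ((p : ℝ) ^ j) ^ (2 / 3 + ε) ≤ M := by
          rw [hM]
          refine Real.rpow_le_rpow (by positivity) (le_min ?_ ?_) (by positivity)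
          · exact pow_le_pow_right₀ hp1 (by omega)
          · exact pow_le_pow_right₀ hp1 (by omega)
        calc C * ((p : ℝ) ^ j) ^ (2 / 3 + ε) ≤ C * 1 * M := by rw [mul_one]; gcongr
          _ ≤ C * A * M := by gcongr
      · by_cases h5 : N0 ≤ (p : ℝ) ^ j
        · rw [hzero j h4 h5, Nat.cast_zero]
          positivity
        · push Not at h5
          refine (hT j).trans ?_
          have h6 : ((p : ℝ) ^ j) ^ (2 / 3 + ε) ≤ A := by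
            rw [hA]
            exact Real.rpow_le_rpow (by positivity) (h5.le.trans (le_max_left _ _)) (by positivity)
          calc C * ((p : ℝ) ^ j) ^ (2 / 3 + ε) ≤ C * A * 1 := by rw [mul_one]; gcongr
            _ ≤ C * A * M := by gcongr
    · have h4 : 4 ≤ j := by omega
      rw [hzero j h4, Nat.cast_zero]
      refine hJ1.le.trans ?_
      have h2 : (2 : ℝ) ≤ p := by exact_mod_cast hp.pp.two_le
      calc (2 : ℝ) ^ J1 ≤ (p : ℝ) ^ J1 := by gcongr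
        _ ≤ (p : ℝ) ^ j := pow_le_pow_right₀ hp1 (by omega)
  rw [Nat.cast_sum]
  calc ∑ j ∈ Finset.range (k + 1),
        ((∑ᶠ χ ∈ {χ : Ideal R → ℂ | HC 0 (𝔭 ^ j) χ}, o (𝔭 ^ j) χ : ℕ) : ℝ)
      ≤ ∑ j ∈ Finset.range (k + 1), (if j < J + 1 then C * A * M else 0) :=
        Finset.sum_le_sum hterm
    _ = ∑ j ∈ (Finset.range (k + 1)).filter (fun j => j < J + 1), C * A * M :=
        (Finset.sum_filter _ _).symm
    _ = (((Finset.range (k + 1)).filter (fun j => j < J + 1)).card : ℝ) * (C * A * M) := by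
        rw [Finset.sum_const, nsmul_eq_mul]
    _ ≤ ((J : ℝ) + 1) * (C * A * M) := by
        gcongr
        have h2 : (Finset.range (k + 1)).filter (fun j => j < J + 1) ⊆ Finset.range (J + 1) := by
          intro j hj
          rw [Finset.mem_filter] at hj
          exact Finset.mem_range.2 hj.2
        have h3 := Finset.card_le_card h2
        rw [Finset.card_range] at h3
        exact_mod_cast h3
    _ = _ := by ring

end Pool.Agent.Y727.RC
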