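import Pool.Agent.Y727.RC.Main
import Pool.Agent.Y727.RC.Tot

/-!
# All ray class characters: the functions, the non-vanishing and the totals
-/

set_option autoImplicit false

open Finset

namespace Pool.Agent.Y727.RC

open Pool.Agent.W192.HK

variable {R : Subring ℂ} {ω : ℂ}

theorem fin (hR : QR R ω) (m : ℕ) (hm : 1 ≤ m) (f : Ideal R) (ψ : Ideal R → ℂ)
    (hψ : HC (2 * m - 1) f ψ) :
    ∃ (K : ℝ) (L : Ideal R → (Ideal R → ℂ) → ℂ → ℂ), 0 < K ∧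
      (∀ (c : Ideal R) (χ : Ideal R → ℂ), IsCoprime f c → HC 0 c χ →
        Differentiable ℂ (L c χ) ∧ (∀ s : ℂ, (m : ℝ) + 1 / 2 < s.re →
          HasSum (fun I : Ideal R => ψ I * χ I * (nm I : ℂ) ^ (-s)) (L c χ s)) ∧
        analyticOrderAt (L c χ) (m : ℂ) ≠ ⊤ ∧
        (analyticOrderNatAt (L c χ) (m : ℂ) : ℝ) ≤ K * (1 + Real.log (nm c))) ∧
      ∀ ε : ℝ, 0 < ε →
        (∃ N0 : ℝ, ∀ (c : Ideal R) (χ : Ideal R → ℂ), IsCoprime f c → HC 0 c χ → N0 ≤ nm c →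
          ∀ d : ℕ, Od χ d → (nm c) ^ (2 / 3 + ε) ≤ d → L c χ (m : ℂ) ≠ 0) ∧
        (∃ C : ℝ, 0 < C ∧ ∀ c : Ideal R, c ≠ ⊥ → IsCoprime f c → IsCyclic (R ⧸ c)ˣ →
          {χ : Ideal R → ℂ | HC 0 c χ}.Finite ∧
          ((∑ᶠ χ ∈ {χ : Ideal R → ℂ | HC 0 c χ}, analyticOrderNatAt (L c χ) (m : ℂ) : ℕ) : ℝ) ≤
            C * (nm c) ^ (2 / 3 + ε)) ∧
        ∃ C : ℝ, 0 < C ∧ ∀ (p : ℕ) (𝔭 : Ideal R), p.Prime → p ≠ 2 → nm 𝔭 = p →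
          (p : R) ∉ 𝔭 ^ 2 → IsCoprime f 𝔭 → ∀ k : ℕ,
          ((∑ j ∈ Finset.range (k + 1), ∑ᶠ χ ∈ {χ : Ideal R → ℂ | HC 0 (𝔭 ^ j) χ},
            analyticOrderNatAt (L (𝔭 ^ j) χ) (m : ℂ) : ℕ) : ℝ) ≤
              C * (min ((p : ℝ) ^ k) ((p : ℝ) ^ 3)) ^ (2 / 3 + ε) := by
  classical
  obtain ⟨K, L, hK, h1, h2⟩ := every hR m hm f ψ hψ
  have hbasic := Pool.Agent.W287.HK.h_basic
  have hcls := Pool.Agent.W571.HK.h_cls hbasic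
  have hfpr := Pool.Agent.W366.HK.h_fpr hbasic hcls
  have hlat := Pool.Agent.W585.HK.h_lat hbasic
  have hker := Pool.Agent.W692.HK.h_ker hbasic hcls hfpr
  have hcnt := Pool.Agent.W584.HK.h_cnt hbasic hcls hfpr hlat hker
  have hz : ∀ ε : ℝ, 0 < ε → ∃ N0 : ℝ, ∀ (c : Ideal R) (χ : Ideal R → ℂ), IsCoprime f c →
      HC 0 c χ → N0 ≤ nm c → ∀ d : ℕ, Od χ d → (nm c) ^ (2 / 3 + ε) ≤ d →
        analyticOrderNatAt (L c χ) (m : ℂ) = 0 := by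
    intro ε hε
    obtain ⟨N0, hN0⟩ := h2 ε hε
    refine ⟨N0, fun c χ hc hχ hN d hd hdN => ?_⟩
    obtain ⟨k1, k2, k3, k4⟩ := h1 c χ hc hχ
    have h3 := hN0 c χ hc hχ hN d hd hdN
    unfold analyticOrderNatAt
    rw [(k1.analyticAt _).analyticOrderAt_eq_zero.2 h3]
    rfl
  refine ⟨K, L, hK, h1, fun ε hε => ⟨h2 ε hε, ?_⟩⟩
  obtain ⟨C, hC, h3⟩ := tot_one hbasic hcls hfpr hcnt hR (fun c => IsCoprime f c)
    (fun c χ => analyticOrderNatAt (L c χ) (m : ℂ)) hK (fun c χ hc hχ => (h1 c χ hc hχ).2.2.2)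
    hz hε
  obtain ⟨C', hC', h4⟩ := tot_tower hbasic hfpr hR (fun c => IsCoprime f c)
    (fun c j hc => IsCoprime.pow_right hc) (fun c χ => analyticOrderNatAt (L c χ) (m : ℂ)) hz hε hC
    (fun c hc hf hcy => (h3 c hc hf hcy).2)
  exact ⟨⟨C, hC, h3⟩, C', hC', fun p 𝔭 hp hp2 h𝔭 hsq hf k => h4 p 𝔭 ⟨hp, h𝔭, hsq⟩ hp2 hf k⟩

end Pool.Agent.Y727.RC
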