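import Pool.Agent.Y727.RC.Cnt
import Pool.Agent.TH936.CW.Odk
import Pool.Agent.W192.HL.Ms
import Pool.Agent.W765.HK.Pair
import Pool.Agent.W287.HK.Basic
import Pool.Agent.W571.HK.Cls
import Pool.Agent.W53.HK.Fp
import Pool.Agent.W366.HK.Fpr
import Pool.Agent.W585.HK.LAT
import Pool.Agent.W692.HK.Ker
import Pool.Agent.W584.HK.CNT
import Pool.Agent.W513.HK.Divr
import Pool.Agent.W822.HK.MU
import Pool.Agent.W240.HK.Count
import Pool.Agent.W883.HK.Tail
import Pool.Agent.W930.HK.Mob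
import Pool.Agent.W648.HK.Mainp0
import Pool.Agent.W240.HK.Dualp0
import Pool.Agent.W768.HK.Finn0
import Pool.Agent.W856.HK.Dec
import Pool.Agent.W636.HK.Gauss
import Pool.Agent.W348.HK.Pois
import Pool.Agent.W29.HK.Prod
import Pool.Agent.W283.HK.PW

/-!
# All ray class characters of large order, all infinity types `(2 m - 1, 0)`
-/

set_option autoImplicit false

open Finset

namespace Pool.Agent.Y727.RC

open Pool.Agent.W192.HK

variable {R : Subring ℂ} {ω : ℂ}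

/-- the facts on ideals and characters used below -/
structure Facts (R : Subring ℂ) (ω : ℂ) : Prop where
  basic : H_BASIC
  cls : H_CLS
  fpr : H_FPR
  cnt : H_CNT
  qr : QR R ω

/-- **Every ray class character of large order**: the functions `L(ψ χ, s)`, the non-vanishing at the
centre `m` for every `χ` of order at least `N(c) ^ (2/3 + ε)`, and the bound for the order of
vanishing. -/
theorem every (hR : QR R ω) (m : ℕ) (hm : 1 ≤ m) (f : Ideal R) (ψ : Ideal R → ℂ)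
    (hψ : HC (2 * m - 1) f ψ) :
    ∃ (K : ℝ) (L : Ideal R → (Ideal R → ℂ) → ℂ → ℂ), 0 < K ∧
      (∀ (c : Ideal R) (χ : Ideal R → ℂ), IsCoprime f c → HC 0 c χ →
        Differentiable ℂ (L c χ) ∧ (∀ s : ℂ, (m : ℝ) + 1 / 2 < s.re →
          HasSum (fun I : Ideal R => ψ I * χ I * (nm I : ℂ) ^ (-s)) (L c χ s)) ∧
        analyticOrderAt (L c χ) (m : ℂ) ≠ ⊤ ∧
        (analyticOrderNatAt (L c χ) (m : ℂ) : ℝ) ≤ K * (1 + Real.log (nm c))) ∧
      ∀ ε : ℝ, 0 < ε → ∃ N0 : ℝ, ∀ (c : Ideal R) (χ : Ideal R → ℂ),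
        IsCoprime f c → HC 0 c χ → N0 ≤ nm c → ∀ d : ℕ, Od χ d →
          (nm c) ^ (2 / 3 + ε) ≤ d → L c χ (m : ℂ) ≠ 0 := by
  classical
  obtain ⟨e, rfl⟩ : ∃ e : ℕ, m = e + 1 := ⟨m - 1, by omega⟩
  have hbasic := Pool.Agent.W287.HK.h_basic
  have hcls := Pool.Agent.W571.HK.h_cls hbasic
  have hfp := Pool.Agent.W53.HK.h_fp hbasic hcls
  have hfpr := Pool.Agent.W366.HK.h_fpr hbasic hcls
  have hlat := Pool.Agent.W585.HK.h_lat hbasic
  have hker := Pool.Agent.W692.HK.h_ker hbasic hcls hfpr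
  have hcnt := Pool.Agent.W584.HK.h_cnt hbasic hcls hfpr hlat hker
  have hdivr := Pool.Agent.W513.HK.h_divr hbasic
  have hmu := Pool.Agent.W822.HK.h_mu hbasic
  have hcount := Pool.Agent.W240.HK.h_count hbasic hcnt hdivr
  have htail := Pool.Agent.W883.HK.h_tail hbasic hcnt hcount
  have hmob := Pool.Agent.W930.HK.h_mob
  have hdiv := Pool.Agent.W216.CY.t_div
  have hmain := Pool.Agent.W648.HK.Mainp0.n_mainp hbasic hcnt hdivr htail hmob hdiv
  have hdual := Pool.Agent.W240.HK.n_dualp hdiv hbasic hcnt hker hmob hfpr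
  have hfinn := Pool.Agent.TH936.HK.h_finn
    (Pool.Agent.W768.HK.Finn0.n_finn hdiv hbasic hcnt hmu hmob hmain hdual hfpr)
  have hpair := Pool.Agent.W765.HK.l_pair hbasic hcls hfpr hker
  have hms := Pool.Agent.W192.HL.ms hbasic hcnt hpair hfpr
  have hdec := Pool.Agent.W856.HK.h_dec hbasic
  have hgauss := Pool.Agent.W636.HK.h_gauss hbasic hfp
  have hpois := Pool.Agent.W348.HK.h_pois hbasic
  have htheta := Pool.Agent.TH936.HK.h_theta hbasic hfp hdec hgauss hpois hcnt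
  have hafe := Pool.Agent.TH936.HK.h_afe hbasic hfp hcnt hgauss htheta
  have hprod := Pool.Agent.W29.HK.h_prod hbasic hfp
  have hpw := Pool.Agent.W283.HK.PW.h_pw hbasic
  obtain ⟨L, h1, h2, -, -, h5⟩ := Pool.Agent.TH936.HK.asmK hdiv hbasic hcls hcnt hmu hmob hmain
    hdual hfpr hfp hafe hfinn hms hgauss hprod hpw hR (e + 1) hm f ψ hψ
  have hψ' : HC (2 * e + 1) f ψ := hψ
  obtain ⟨M, hM, hequi⟩ := Pool.Agent.TH936.CW.equiK hbasic hfp hcnt hdec hafe hcls hprod hpw hR hψ'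
  obtain ⟨K, hK, hord⟩ := Pool.Agent.TH936.CW.ordK_le hbasic hfp hcnt hgauss htheta hcls hR e
  obtain ⟨b1, b2, b3, b4, b5, b6, b7, -⟩ := hbasic R ω hR
  have hf1 : 1 ≤ nm f := b3 f hψ.ne
  have hlf : 0 ≤ Real.log (nm f) := Real.log_nonneg hf1
  have hIsL : ∀ (c : Ideal R) (χ : Ideal R → ℂ), IsCoprime f c → HC 0 c χ →
      Pool.Agent.TH936.CW.IsLK e ψ χ (L c χ) := by
    intro c χ hc hχ
    obtain ⟨g1, g2⟩ := h1 c χ hc hχ
    exact ⟨g1, g2⟩
  refine ⟨K * (1 + Real.log (nm f)), L, by positivity, fun c χ hc hχ => ?_, fun ε hε => ?_⟩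
  · obtain ⟨g1, g2⟩ := h1 c χ hc hχ
    have hθ : HC (2 * e + 1) (f * c) (fun I => ψ I * χ I) := hprod R ω hR _ f c ψ χ hψ' hχ hc
    obtain ⟨k1, k2⟩ := hord (f * c) _ hθ (L c χ) g1 g2
    have hc1 : 1 ≤ nm c := b3 c hχ.ne
    have hlc : 0 ≤ Real.log (nm c) := Real.log_nonneg hc1
    refine ⟨g1, g2, k1, k2.trans ?_⟩
    rw [b4, Real.log_mul (by positivity) (by positivity)]
    nlinarith [mul_nonneg hlf hlc, mul_nonneg hK.le (mul_nonneg hlf hlc)]
  · obtain ⟨N0, hN0⟩ := h5 M hM ε hε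
    refine ⟨N0, fun c χ hc hχ hN d hd hdN h0 => ?_⟩
    obtain ⟨a, ha0, ha1, ha2, ha3⟩ := hN0 c χ hc hχ hN d hd hdN
    have hχa := h2 c χ hχ d hd a ha1
    have h6 := (hequi c χ hc hχ d hd a ha1 ha2 _ _ (hIsL c χ hc hχ)
      (hIsL c _ hc hχa)).1 h0
    rw [h6, norm_zero] at ha3
    have h8 : (0 : ℝ) < nm c := lt_of_lt_of_le one_pos (b3 c hχ.ne)
    have h9 := Real.rpow_pos_of_pos h8 (-ε)
    linarith

end Pool.Agent.Y727.RC
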